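import Mathlib

/-!
# The second derived set is closed in every `T₀`-space

If `x` lies in the closure of `(Aᵈ)ᵈ` but not in `(Aᵈ)ᵈ`, some open `U ∋ x` meets `Aᵈ` at most in `x`
and contains a point `y ≠ x` of `(Aᵈ)ᵈ`. Every neighbourhood of `y` then contains `x ∈ Aᵈ`, while
`y ∉ Aᵈ`, so `y` has a neighbourhood meeting `A` at most in `y`; this forces every neighbourhood of
`x` to contain `y`. Thus `x` and `y` are topologically indistinguishable.
-/

set_option autoImplicit false

namespace Pool.Agent.Results.MP_091ced_gt.SecondDerivedClosed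

universe u

/-- The derived set `Aᵈ` of `A`: the points `x` lying in the closure of `A \ {x}`. -/
def derived {X : Type u} [TopologicalSpace X] (A : Set X) : Set X :=
  {x | x ∈ closure (A \ {x})}

/-- In every `T₀`-space `X` the second derived set `(Aᵈ)ᵈ` of every subset `A` is closed. -/
theorem result : ∀ (X : Type u) [TopologicalSpace X] [T0Space X] (A : Set X),
    IsClosed (derived (derived A)) := by
  intro X _ _ A
  rw [← closure_subset_iff_isClosed]
  intro x hx
  by_contra hxE
  have hxE' : x ∉ closure (derived A \ {x}) := hxE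
  rw [mem_closure_iff] at hxE'
  push Not at hxE'
  obtain ⟨U, hU, hxU, hUe⟩ := hxE'
  have hU1 : ∀ z ∈ U, z ∈ derived A → z = x := by
    intro z hz hzA
    by_contra hne
    have : z ∈ U ∩ (derived A \ {x}) := ⟨hz, hzA, hne⟩
    rw [hUe] at this
    exact this
  obtain ⟨y, hyU, hyE⟩ := mem_closure_iff.1 hx U hU hxU
  have hyx : y ≠ x := by
    rintro rfl
    exact hxE hyE
  have hyE' : y ∈ closure (derived A \ {y}) := hyE
  -- every neighbourhood of `y` contains `x`, and `x ∈ Aᵈ`
  have h1 : ∀ V : Set X, IsOpen V → y ∈ V → x ∈ V ∧ x ∈ derived A := by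
    intro V hV hyV
    obtain ⟨z, ⟨hzV, hzU⟩, hzA, _⟩ := mem_closure_iff.1 hyE' (V ∩ U) (hV.inter hU) ⟨hyV, hyU⟩
    have := hU1 z hzU hzA
    subst this
    exact ⟨hzV, hzA⟩
  have hxA : x ∈ closure (A \ {x}) := (h1 U hU hyU).2
  have hyA : y ∉ derived A := fun h => hyx (hU1 y hyU h)
  have hyA' : y ∉ closure (A \ {y}) := hyA
  rw [mem_closure_iff] at hyA'
  push Not at hyA'
  obtain ⟨V, hV, hyV, hVe⟩ := hyA'
  have hV1 : ∀ z ∈ V, z ∈ A → z = y := by
    intro z hz hzA
    by_contra hne
    have : z ∈ V ∩ (A \ {y}) := ⟨hz, hzA, hne⟩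
    rw [hVe] at this
    exact this
  have hxV : x ∈ V := (h1 V hV hyV).1
  -- every neighbourhood of `x` contains `y`
  have h2 : ∀ W : Set X, IsOpen W → x ∈ W → y ∈ W := by
    intro W hW hxW
    obtain ⟨z, ⟨hzW, hzV⟩, hzA, _⟩ := mem_closure_iff.1 hxA (W ∩ V) (hW.inter hV) ⟨hxW, hxV⟩
    have := hV1 z hzV hzA
    subst this
    exact hzW
  apply hyx
  apply T0Space.t0
  rw [inseparable_iff_forall_isOpen]
  intro W hW
  exact ⟨fun h => (h1 W hW h).1, fun h => h2 W hW h⟩

end Pool.Agent.Results.MP_091ced_gt.SecondDerivedClosed
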